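import Pool.Agent.W447.LT.Stm

/-! Project LT: one phase of the clock. -/

set_option autoImplicit false

namespace Pool.Agent.W202.LT.Phase

open Pool.Agent.W447.LT
open Polynomial

theorem divX_X_pow_mul (m : ℕ) (p : (ZMod 2)[X]) : divX (X ^ (m + 1) * p) = X ^ m * p := by
  ext n
  rw [coeff_divX, pow_succ', mul_assoc, coeff_X_mul]

theorem coeff_iter (p : (ZMod 2)[X]) (i j : ℕ) : (divX^[i] p).coeff j = p.coeff (j + i) := by
  induction i generalizing j with
  | zero => rfl
  | succ i ih =>
    rw [Function.iterate_succ', Function.comp_apply, coeff_divX, ih]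
    congr 1
    omega

/-- the contents after `i` steps -/
noncomputable def cont {N : ℕ} (T : ℕ) (D : Fin N → (ZMod 2)[X]) (f : ℕ → Fin N → ZMod 2)
    (u : (ZMod 2)[X]) (i : ℕ) : C N :=
  (X ^ (T - i) * u ^ i, fun r => divX^[i] (D r),
    fun r => X ^ (T - i) * ∑ j ∈ Finset.range i, Polynomial.C (f j r) * u ^ j)

theorem phase : PHASE := by
  intro N S δ b T D σ f hD hδ
  set u : (ZMod 2)[X] := (1 + X) ^ (if b then 2 else 1) with hu
  have key : ∀ m i : ℕ, i + m = T → Runs δ m (σ i, cont T D f u i) (σ T, cont T D f u T) := by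
    intro m
    induction m with
    | zero =>
      intro i hi
      have : i = T := by omega
      subst this
      exact rfl
    | succ m ih =>
      intro i hi
      refine ⟨(σ (i + 1), cont T D f u (i + 1)), ?_, ih (i + 1) (by omega)⟩
      have hTi : T - i = m + 1 := by omega
      have hTi' : T - (i + 1) = m := by omega
      have hhd : hd (cont T D f u i) = (0, (fun r => (D r).coeff i), fun _ => 0) := by
        unfold hd cont
        rw [hTi]
        refine Prod.ext ?_ (Prod.ext ?_ ?_)
        · show (X ^ (m + 1) * u ^ i : (ZMod 2)[X]).coeff 0 = 0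
          rw [pow_succ', mul_assoc, coeff_X_mul_zero]
        · funext r
          show (divX^[i] (D r)).coeff 0 = (D r).coeff i
          rw [coeff_iter, zero_add]
        · funext r
          show (X ^ (m + 1) * ∑ j ∈ Finset.range i, Polynomial.C (f j r) * u ^ j :
            (ZMod 2)[X]).coeff 0 = 0
          rw [pow_succ', mul_assoc, coeff_X_mul_zero]
      unfold st
      simp only
      rw [hhd, hδ i (by omega)]
      simp only [Option.some.injEq, Prod.mk.injEq, true_and]
      unfold upd tl cont
      rw [hTi, hTi']
      simp only [Bool.false_eq_true, if_false]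
      refine Prod.ext ?_ (Prod.ext ?_ ?_)
      · show (1 + X) ^ (if b = true then 2 else 1) * divX (X ^ (m + 1) * u ^ i) =
          X ^ m * u ^ (i + 1)
        rw [divX_X_pow_mul, ← hu]
        ring
      · funext r
        show divX (divX^[i] (D r)) = divX^[i + 1] (D r)
        rw [Function.iterate_succ', Function.comp_apply]
      · funext r
        show divX (X ^ (m + 1) * ∑ j ∈ Finset.range i, Polynomial.C (f j r) * u ^ j) +
          Polynomial.C (f i r) * divX (X ^ (m + 1) * u ^ i) =
          X ^ m * ∑ j ∈ Finset.range (i + 1), Polynomial.C (f j r) * u ^ j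
        rw [divX_X_pow_mul, divX_X_pow_mul, Finset.sum_range_succ]
        ring
  have h0 : cont T D f u 0 = (X ^ T, D, 0) := by
    unfold cont
    refine Prod.ext ?_ (Prod.ext ?_ ?_)
    · show X ^ (T - 0) * u ^ 0 = X ^ T
      rw [pow_zero, mul_one, Nat.sub_zero]
    · rfl
    · funext r
      show X ^ (T - 0) * ∑ j ∈ Finset.range 0, Polynomial.C (f j r) * u ^ j = 0
      rw [Finset.sum_range_zero, mul_zero]
  have hT : cont T D f u T = (u ^ T, 0,
      fun r => ∑ i ∈ Finset.range T, Polynomial.C (f i r) * u ^ i) := by
    unfold cont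
    refine Prod.ext ?_ (Prod.ext ?_ ?_)
    · show X ^ (T - T) * u ^ T = u ^ T
      rw [Nat.sub_self, pow_zero, one_mul]
    · funext r
      show divX^[T] (D r) = 0
      ext j
      rw [coeff_iter, coeff_zero]
      rcases hD r with h | h
      · rw [h, coeff_zero]
      · exact coeff_eq_zero_of_natDegree_lt (by omega)
    · funext r
      show X ^ (T - T) * ∑ j ∈ Finset.range T, Polynomial.C (f j r) * u ^ j = _
      rw [Nat.sub_self, pow_zero, one_mul]
  have := key T 0 (by omega)
  rw [h0, hT] at this
  exact this

end Pool.Agent.W202.LT.Phase
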